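import Pool.Agent.R393.UO.Trans

/-!
Amalgamation of fields over a ring; curves through a generic point.
-/

set_option autoImplicit false

namespace Pool.Agent.R393.UF

open MvPolynomial
open scoped TensorProduct

theorem amalg {R K1 K2 : Type} [CommRing R] [Field K1] [Field K2] (f : R →+* K1) (g : R →+* K2)
    (h : ∀ a, f a = 0 ↔ g a = 0) : ∃ (Ω : Type) (_ : Field Ω) (α : K1 →+* Ω) (β : K2 →+* Ω),
      ∀ a, α (f a) = β (g a) := by
  let Q := R ⧸ RingHom.ker f
  let f' : Q →+* K1 := RingHom.kerLift f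
  have hf' : Function.Injective f' := RingHom.kerLift_injective f
  let g' : Q →+* K2 := Ideal.Quotient.lift (RingHom.ker f) g (fun a ha => (h a).1 ha)
  have hg' : Function.Injective g' := by
    refine (injective_iff_map_eq_zero _).2 fun a ha => ?_
    obtain ⟨a, rfl⟩ := Ideal.Quotient.mk_surjective a
    exact Ideal.Quotient.eq_zero_iff_mem.2 ((h a).2 ha)
  let _ : Algebra Q K1 := f'.toAlgebra
  let _ : Algebra Q K2 := g'.toAlgebra
  have hn : Nontrivial (K1 ⊗[Q] K2) :=
    Algebra.TensorProduct.nontrivial_of_algebraMap_injective_of_isDomain Q K1 K2 hf' hg'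
  obtain ⟨m, hm⟩ := Ideal.exists_maximal (K1 ⊗[Q] K2)
  refine ⟨(K1 ⊗[Q] K2) ⧸ m, Ideal.Quotient.field m,
    (Ideal.Quotient.mk m).comp (Algebra.TensorProduct.includeLeftRingHom),
    (Ideal.Quotient.mk m).comp (Algebra.TensorProduct.includeRight : K2 →ₐ[Q] K1 ⊗[Q] K2).toRingHom,
    fun a => ?_⟩
  change Ideal.Quotient.mk m (f a ⊗ₜ[Q] 1) = Ideal.Quotient.mk m (1 ⊗ₜ[Q] g a)
  congr 1
  have h1 : f a ⊗ₜ[Q] (1 : K2) = (algebraMap Q K1 (Ideal.Quotient.mk _ a)) ⊗ₜ[Q] (1 : K2) := rfl
  have h2 : (1 : K1) ⊗ₜ[Q] g a = (1 : K1) ⊗ₜ[Q] (algebraMap Q K2 (Ideal.Quotient.mk _ a)) := rfl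
  rw [h1, h2, Algebra.algebraMap_eq_smul_one, Algebra.algebraMap_eq_smul_one,
    TensorProduct.smul_tmul]

/-- the cone over a point -/
noncomputable def cone {A K : Type} [CommRing A] [Field K] (α : A →+* K) {n : ℕ}
    (P : Fin n → K) : MvPolynomial (Fin n) A →+* Polynomial K :=
  eval₂Hom (Polynomial.C.comp α) fun j => Polynomial.X * Polynomial.C (P j)

theorem cone_hom {A K : Type} [CommRing A] [Field K] (α : A →+* K) {n : ℕ} (P : Fin n → K)
    {G : MvPolynomial (Fin n) A} {d : ℕ} (hG : G.IsHomogeneous d) :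
    cone α P G = Polynomial.C (eval₂ α P G) * Polynomial.X ^ d := by
  unfold cone
  rw [coe_eval₂Hom, eval₂_eq', eval₂_eq', map_sum, Finset.sum_mul]
  refine Finset.sum_congr rfl fun m hm => ?_
  have h1 : ∑ j, m j = d := by
    have h2 := hG (mem_support_iff.1 hm)
    rw [Finsupp.weight_apply, Finsupp.sum_fintype] at h2
    · simpa using h2
    · intro i
      simp
  simp only [mul_pow, Finset.prod_mul_distrib, Finset.prod_pow_eq_pow_sum, h1, map_mul, map_prod,
    map_pow, RingHom.comp_apply]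
  ring

theorem cone_zero {A K : Type} [CommRing A] [Field K] (α : A →+* K) {n : ℕ} (P : Fin n → K)
    (G : MvPolynomial (Fin n) A) :
    cone α P G = 0 ↔ ∀ d, eval₂ α P (homogeneousComponent d G) = 0 := by
  have h1 : cone α P G = ∑ d ∈ Finset.range (G.totalDegree + 1),
      Polynomial.C (eval₂ α P (homogeneousComponent d G)) * Polynomial.X ^ d := by
    conv_lhs => rw [← sum_homogeneousComponent G]
    rw [map_sum]
    exact Finset.sum_congr rfl fun d _ => cone_hom α P (homogeneousComponent_isHomogeneous d G)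
  constructor
  · intro h d
    by_cases hd : d < G.totalDegree + 1
    · have h2 := congrArg (fun p => Polynomial.coeff p d) (h1.symm.trans h)
      simp only [Polynomial.finsetSum_coeff, Polynomial.coeff_C_mul, Polynomial.coeff_X_pow,
        Polynomial.coeff_zero] at h2
      rw [Finset.sum_eq_single d] at h2
      · simpa using h2
      · intro b _ hb
        rw [if_neg (Ne.symm hb), mul_zero]
      · intro h3
        exact absurd (Finset.mem_range.2 hd) h3
    · rw [homogeneousComponent_eq_zero _ _ (by omega), eval₂_zero]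
  · intro h
    rw [h1]
    exact Finset.sum_eq_zero fun d _ => by rw [h d, map_zero, zero_mul]

theorem scale_eval {A B : Type} [CommRing A] [CommRing B] (α : A →+* B) {n : ℕ} (P : Fin n → B)
    (c : B) {G : MvPolynomial (Fin n) A} {d : ℕ} (hG : G.IsHomogeneous d) :
    eval₂ α (fun j => c * P j) G = c ^ d * eval₂ α P G := by
  rw [eval₂_eq', eval₂_eq', Finset.mul_sum]
  refine Finset.sum_congr rfl fun m hm => ?_
  have h1 : ∑ j, m j = d := by
    have h2 := hG (mem_support_iff.1 hm)
    rw [Finsupp.weight_apply, Finsupp.sum_fintype] at h2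
    · simpa using h2
    · intro i
      simp
  simp only [mul_pow, Finset.prod_mul_distrib, Finset.prod_pow_eq_pow_sum, h1]
  ring

/-- **Curves through a generic point.** -/
theorem amalg_curve {A κ L : Type} [CommRing A] [Field κ] [Field L] (α0 : A →+* κ) (β0 : A →+* L)
    {n : ℕ} (P : Fin (n + 1) → κ) (q : Fin (n + 1) → L)
    (hPq : ∀ (G : MvPolynomial (Fin (n + 1)) A) (d : ℕ), G.IsHomogeneous d →
      (eval₂ α0 P G = 0 ↔ eval₂ β0 q G = 0))
    (p : Fin (n + 1) → Polynomial L) (d : L) (hd : d ≠ 0) (hp1 : ∀ j, (p j).eval 1 = d * q j)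
    {ι : Type} (F : ι → MvPolynomial (Fin (n + 1)) A) (hhom : ∀ i, ∃ e, (F i).IsHomogeneous e)
    (hF : ∀ i, eval₂ (Polynomial.C.comp β0) p (F i) = 0)
    (hc : ∃ i j, p i * Polynomial.C ((p j).eval 1) ≠ p j * Polynomial.C ((p i).eval 1)) :
    ∃ (Ω : Type) (_ : Field Ω) (α : κ →+* Ω) (p' : Fin (n + 1) → Polynomial Ω),
      (∀ i, eval₂ (Polynomial.C.comp (α.comp α0)) p' (F i) = 0) ∧
      (∀ j, (p' j).eval 1 = α (P j)) ∧
      ∃ i j, p' i * Polynomial.C ((p' j).eval 1) ≠ p' j * Polynomial.C ((p' i).eval 1) := by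
  let ra : Polynomial κ →+* RatFunc κ := algebraMap (Polynomial κ) (RatFunc κ)
  let rb : Polynomial L →+* RatFunc L := algebraMap (Polynomial L) (RatFunc L)
  have hra : Function.Injective ra := RatFunc.algebraMap_injective κ
  have hrb : Function.Injective rb := RatFunc.algebraMap_injective L
  obtain ⟨Ω, iΩ, α', β', hαβ⟩ := amalg (ra.comp (cone α0 P)) (rb.comp (cone β0 q)) (fun G => by
    rw [RingHom.comp_apply, RingHom.comp_apply, map_eq_zero_iff _ hra, map_eq_zero_iff _ hrb,
      cone_zero, cone_zero]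
    exact forall_congr' fun e => hPq _ e (homogeneousComponent_isHomogeneous e G))
  let α : κ →+* Ω := (α'.comp ra).comp Polynomial.C
  let β : L →+* Ω := (β'.comp rb).comp Polynomial.C
  let u : Ω := α' (ra Polynomial.X)
  let v : Ω := β' (rb Polynomial.X)
  have hu : u ≠ 0 := by
    rw [Ne, map_eq_zero, map_eq_zero_iff _ hra]
    exact Polynomial.X_ne_zero
  have hv : v ≠ 0 := by
    rw [Ne, map_eq_zero, map_eq_zero_iff _ hrb]
    exact Polynomial.X_ne_zero
  have hX : ∀ j, u * α (P j) = v * β (q j) := by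
    intro j
    have h1 := hαβ (X j)
    rw [RingHom.comp_apply, RingHom.comp_apply] at h1
    unfold cone at h1
    rw [coe_eval₂Hom, coe_eval₂Hom, eval₂_X, eval₂_X, map_mul, map_mul, map_mul, map_mul] at h1
    exact h1
  have hA : ∀ a, α (α0 a) = β (β0 a) := by
    intro a
    have h1 := hαβ (C a)
    rw [RingHom.comp_apply, RingHom.comp_apply] at h1
    unfold cone at h1
    rw [coe_eval₂Hom, coe_eval₂Hom, eval₂_C, eval₂_C] at h1
    exact h1
  have hβd : β d ≠ 0 := (map_ne_zero β).2 hd
  let w : Ω := v / (u * β d)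
  have hw : w ≠ 0 := div_ne_zero hv (mul_ne_zero hu hβd)
  have hwq : ∀ j, w * β (d * q j) = α (P j) := by
    intro j
    have h1 := hX j
    change v / (u * β d) * β (d * q j) = _
    rw [map_mul, div_mul_eq_mul_div, div_eq_iff (mul_ne_zero hu hβd)]
    linear_combination -(β d) * h1
  have hev : ∀ j, ((p j).map β).eval 1 = β (d * q j) := by
    intro j
    rw [Polynomial.eval_one_map, hp1]
  refine ⟨Ω, iΩ, α, fun j => Polynomial.C w * (p j).map β, fun i => ?_, fun j => ?_, ?_⟩
  · obtain ⟨e, he⟩ := hhom i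
    rw [scale_eval _ (fun j => (p j).map β) _ he]
    have h1 : (Polynomial.C.comp (α.comp α0) : A →+* Polynomial Ω) =
        (Polynomial.mapRingHom β).comp (Polynomial.C.comp β0) := by
      refine RingHom.ext fun a => ?_
      change Polynomial.C (α (α0 a)) = Polynomial.map β (Polynomial.C (β0 a))
      rw [Polynomial.map_C, hA]
    rw [h1]
    have h2 := hom_eval₂ (F i) (Polynomial.C.comp β0) (Polynomial.mapRingHom β) p
    rw [hF i, map_zero] at h2
    change _ * eval₂ _ (fun j => Polynomial.mapRingHom β (p j)) (F i) = 0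
    rw [← h2, mul_zero]
  · rw [Polynomial.eval_mul, Polynomial.eval_C, hev, hwq]
  · obtain ⟨i, j, h1⟩ := hc
    refine ⟨i, j, fun h2 => h1 ?_⟩
    apply Polynomial.map_injective β β.injective
    rw [Polynomial.map_mul, Polynomial.map_mul, Polynomial.map_C, Polynomial.map_C, hp1, hp1]
    simp only [Polynomial.eval_mul, Polynomial.eval_C, hev, map_mul] at h2
    have hCw : (Polynomial.C w : Polynomial Ω) ≠ 0 := Polynomial.C_ne_zero.2 hw
    apply mul_left_cancel₀ (mul_ne_zero hCw hCw)
    simp only [map_mul]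
    linear_combination h2

end Pool.Agent.R393.UF
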