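import Pool.Agent.R393.SC.Fin
import Pool.Agent.R393.UD.Trans

/-!
The limit of a sequence of entire curves of bounded complexity, with prescribed centres.
-/

set_option autoImplicit false

namespace Pool.Agent.R393.UF

open MvPolynomial Pool.Agent.Y377.ST Pool.Agent.Y377.IL Pool.Agent.Y377.EL Pool.Agent.H533R3.SL
open Pool.Agent.R393.SC

variable {s r e n : ℕ}

theorem exists_ent {x : ℂ → Fin n → ℂ} (hx : CurveVec s r e x) :
    ∃ ξ : Fin n → Ent, ∀ j z, (ξ j : ℂ → ℂ) z = x z j := by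
  obtain ⟨X, Y, hXY, hc⟩ := id hx
  choose c hc using hc
  refine ⟨fun j => pev (fun m => algebraMap ℂ Ent (c j m)) (ent (XE hXY) (YE hXY)), fun j z => ?_⟩
  rw [hc j z, ← evE_apply]
  change evE z (pev (fun m => algebraMap ℂ Ent (c j m)) (ent (XE hXY) (YE hXY))) = _
  rw [map_pev]
  have h1 : (fun v => evE z (ent (XE hXY) (YE hXY) v)) = entries X Y z :=
    funext fun v => evE_ent hXY z v
  rw [h1]
  rfl

/-- **The limit argument with prescribed centres.** -/
theorem limP {A : Type} [CommRing A] (φ : A →+* (ℕ → ℂ)) (x : ℕ → ℂ → Fin (n + 1) → ℂ)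
    (hx : ∀ T, CurveVec s r e (x T)) (ξ : ℕ → Fin (n + 1) → Ent)
    (hξ : ∀ T j z, (ξ T j : ℂ → ℂ) z = x T z j) (w : ℕ → ℂ) (a b : ℕ → Fin (n + 1))
    (hw2 : ∀ T, (wro (ξ T (a T)) (ξ T (b T)) : ℂ → ℂ) (w T) ≠ 0)
    (Θ : (ℕ → ℂ) →+* ℂ) (hΘ : ∀ f : ℕ → ℂ, (∃ n, ∀ i, n ≤ i → f i = 0) → Θ f = 0) :
    ∃ (M : Type) (_ : Field M) (_ : Algebra ℂ M) (q : Fin (n + 1) → RatFunc M),
      (∀ (G : MvPolynomial (Fin (n + 1)) A) (d : ℕ), G.IsHomogeneous d →
        (aeval q (map (Θ.comp φ) G) = 0 ↔ psi Θ w (fun T => eval₂ ((algebraMap ℂ Ent).comp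
          ((Pi.evalRingHom (fun _ : ℕ => ℂ) T).comp φ)) (ξ T) G) = 0)) ∧
      ∃ i l, q l ≠ 0 ∧ ∀ c : M, q i / q l ≠ algebraMap M (RatFunc M) c := by
  classical
  choose X Y hXY c hc using hx
  -- the coordinates as entire functions
  let V : ℕ → Ix s r → Ent := fun i => ent (XE (hXY i)) (YE (hXY i))
  have hξc : ∀ i j, ξ i j = pev (fun m => algebraMap ℂ Ent (c i j m)) (V i) := by
    intro i j
    apply Subtype.ext
    funext z
    rw [hξ, hc i j z]
    change _ = evE z (pev (fun m => algebraMap ℂ Ent (c i j m)) (V i))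
    rw [map_pev]
    have h1 : (fun v => evE z (V i v)) = entries (X i) (Y i) z := funext fun v => evE_ent (hXY i) z v
    rw [h1]
    rfl
  -- values of polynomials as entire functions
  let σ : ℕ → A →+* ℂ := fun i => (Pi.evalRingHom (fun _ : ℕ => ℂ) i).comp φ
  let gE : ℕ → MvPolynomial (Fin (n + 1)) A → Ent := fun i G =>
    eval₂ ((algebraMap ℂ Ent).comp (σ i)) (ξ i) G
  obtain ⟨D, hD, hCst⟩ := Pool.Agent.Y884.IL.t_FRC
  set Ψ := psi Θ w with hΨ
  have hΨD : ∀ f, D (Ψ f) = Ψ fun i => dE (f i) := fun f => psi_der Θ hD w f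
  have hΨc : ∀ c : ℕ → ℂ, Ψ (fun i => algebraMap ℂ Ent (c i)) = algebraMap ℂ KK (Θ c) := fun c =>
    psi_const Θ w c
  let σs : A →+* ℂ := Θ.comp φ
  let X' : Fin s → Matrix (Fin r) (Fin r) KK := fun l => Matrix.of fun a b => Ψ fun i => XE (hXY i) l a b
  let Y' : Fin s → Matrix (Fin r) (Fin r) KK := fun l => Matrix.of fun a b => Ψ fun i => YE (hXY i) l a b
  have hV' : ∀ v, ent X' Y' v = Ψ fun i => V i v := by
    intro v
    unfold ent
    split_ifs with hv
    · change Ψ (fun i => XE (hXY i) v.1 v.2.2.1 v.2.2.2) = _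
      congr 1
      funext i
      change _ = ent (XE (hXY i)) (YE (hXY i)) v
      unfold ent
      rw [if_pos hv]
    · change Ψ (fun i => YE (hXY i) v.1 v.2.2.1 v.2.2.2) = _
      congr 1
      funext i
      change _ = ent (XE (hXY i)) (YE (hXY i)) v
      unfold ent
      rw [if_neg hv]
  have hinv' : ∀ l, X' l * Y' l = 1 := by
    intro l
    ext a b
    rw [Matrix.mul_apply]
    change ∑ j, Ψ (fun i => XE (hXY i) l a j) * Ψ (fun i => YE (hXY i) l j b) = _
    have h1 : ∑ j, Ψ (fun i => XE (hXY i) l a j) * Ψ (fun i => YE (hXY i) l j b) =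
        Ψ (fun i => (XE (hXY i) l * YE (hXY i) l) a b) := by
      have h2 : (fun i => (XE (hXY i) l * YE (hXY i) l) a b) =
          ∑ j, (fun i => XE (hXY i) l a j) * (fun i => YE (hXY i) l j b) := by
        funext i
        rw [Matrix.mul_apply, Finset.sum_apply]
        rfl
      rw [h2, map_sum]
      exact Finset.sum_congr rfl fun j _ => (map_mul Ψ _ _).symm
    rw [h1]
    have h3 : (fun i => (XE (hXY i) l * YE (hXY i) l) a b) =
        fun _ => (1 : Matrix (Fin r) (Fin r) Ent) a b := funext fun i => by rw [inv_E]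
    rw [h3]
    by_cases hab : a = b
    · subst hab
      simp only [Matrix.one_apply_eq]
      exact map_one Ψ
    · simp only [Matrix.one_apply_ne hab]
      exact map_zero Ψ
  choose C hC' using fun i => (hXY i).ode
  have hode' : ∀ l a b, D (X' l a b) =
      ∑ k, pev (fun m => algebraMap ℂ KK (Θ fun i => C i l a k m)) (before l (ent X' Y')) *
        X' l k b := by
    intro l a b
    change D (Ψ fun i => XE (hXY i) l a b) = _
    rw [hΨD]
    have h1 : (fun i => dE (XE (hXY i) l a b)) = ∑ k,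
        pev (fun m i => algebraMap ℂ Ent (C i l a k m)) (before l fun v i => V i v) *
          (fun i => XE (hXY i) l k b) := by
      funext i
      rw [ode_E (hXY i) l (hC' i l) a b, Finset.sum_apply]
      refine Finset.sum_congr rfl fun k _ => ?_
      rw [Pi.mul_apply, pev_apply]
      congr 2
      funext v
      exact before_map (Pi.evalRingHom (fun _ : ℕ => Ent) i) l (fun v i => V i v) v
    rw [h1, map_sum]
    refine Finset.sum_congr rfl fun k _ => ?_
    rw [map_mul, map_pev]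
    congr 1
    have h2 : (fun m => Ψ fun i => algebraMap ℂ Ent (C i l a k m)) =
        fun m => algebraMap ℂ KK (Θ fun i => C i l a k m) := funext fun m => hΨc _
    have h3 : (fun v => Ψ (before l (fun v i => V i v) v)) = before l (ent X' Y') := by
      funext v
      rw [← before_map Ψ l (fun v i => V i v) v]
      congr 1
      funext v'
      exact (hV' v').symm
    rw [h2, h3]
  obtain ⟨R, hR, hmem⟩ := exists_tow X' Y' hinv' (fun l a k m => Θ fun i => C i l a k m) hode'
  let x' : Fin (n + 1) → KK := fun j => Ψ fun i => ξ i j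
  have hx' : ∀ j, x' j ∈ R := by
    intro j
    have h1 : x' j = pev (fun m => algebraMap ℂ KK (Θ fun i => c i j m)) (ent X' Y') := by
      change Ψ (fun i => ξ i j) = _
      simp only [hξc]
      have h2 : (fun i => pev (fun m => algebraMap ℂ Ent (c i j m)) (V i)) =
          pev (fun m i => algebraMap ℂ Ent (c i j m)) (fun v i => V i v) := by
        funext i
        rw [pev_apply]
      rw [h2, map_pev]
      congr 1
      · funext m
        exact hΨc _
      · funext v
        exact (hV' v).symm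
    rw [h1]
    exact pev_in R (fun m => R.algebraMap_mem _) hmem
  have hval : ∀ G : MvPolynomial (Fin (n + 1)) A,
      aeval x' (map σs G) = Ψ fun i => gE i G := by
    intro G
    rw [aeval_def, eval₂_map]
    let ρ : A →+* (ℕ → Ent) := RingHom.pi fun i => (algebraMap ℂ Ent).comp (σ i)
    have h1 := eval₂_comp_left Ψ ρ (fun j i => ξ i j) G
    have h2 : Ψ.comp ρ = (algebraMap ℂ KK).comp σs := RingHom.ext fun a => hΨc fun i => σ i a
    have h3 : eval₂ ρ (fun j i => ξ i j) G = fun i => gE i G := by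
      funext i
      exact eval₂_comp_left (Pi.evalRingHom (fun _ : ℕ => Ent) i) ρ (fun j i => ξ i j) G
    rw [h2, h3] at h1
    exact h1.symm
  -- the limit is not constant
  obtain ⟨p, hp⟩ := psi_ne Θ hΘ w (fun (p : Fin (n + 1) × Fin (n + 1)) i => wro (ξ i p.1) (ξ i p.2)) 0
    (fun i _ => ⟨(a i, b i), hw2 i⟩)
  have hwr : D (x' p.1) * x' p.2 - x' p.1 * D (x' p.2) ≠ 0 := by
    intro h0
    apply hp
    rw [← h0]
    change Ψ (fun i => wro (ξ i p.1) (ξ i p.2)) = D (Ψ fun i => ξ i p.1) * Ψ (fun i => ξ i p.2) -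
      Ψ (fun i => ξ i p.1) * D (Ψ fun i => ξ i p.2)
    rw [hΨD, hΨD, ← map_mul, ← map_mul, ← map_sub]
    rfl
  obtain ⟨l, hl⟩ : ∃ l, x' l ≠ 0 := by
    by_contra hcon
    push Not at hcon
    apply hwr
    rw [hcon p.1, hcon p.2, mul_zero, zero_mul, sub_zero]
  have hFam : ∀ t : Finset KK, (∀ z ∈ t, ∃ j, z = x' j / x' l) → (∀ j, x' j / x' l ∈ t) →
      RatFam R t := by
    intro t ht1 ht2
    refine hyp.main hCst (goodB_bot D) hR (fun z hz => ?_) ?_
    · obtain ⟨j, rfl⟩ := ht1 z hz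
      exact fracs_mem (hx' j) (hx' l)
    · by_contra hcon
      push Not at hcon
      apply hwr
      have h1 : ∀ j, ∃ c : ℂ, x' j = algebraMap ℂ KK c * x' l := by
        intro j
        obtain ⟨c, hc⟩ := const_of_alg (hcon (x' j / x' l) (ht2 j))
        exact ⟨c, by rwa [div_eq_iff hl] at hc⟩
      obtain ⟨c1, hc1⟩ := h1 p.1
      obtain ⟨c2, hc2⟩ := h1 p.2
      rw [hc1, hc2, D.leibniz, D.leibniz, D.map_algebraMap, D.map_algebraMap]
      simp only [smul_eq_mul, mul_zero, add_zero]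
      ring
  obtain ⟨M, j1, j2, q, hq1, hq2, hq3⟩ := rat_curve hl hFam
  refine ⟨M, j1, j2, q, fun G d hG => ?_, ?_⟩
  · rw [hq1 _ d (hG.map σs), hval]
  · obtain ⟨i, hi⟩ := hq3
    exact ⟨i, l, hq2, hi⟩

end Pool.Agent.R393.UF
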