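import Pool.Agent.R393.UA.Spec
import Pool.Agent.R393.UD.Trans

/-!
Specialisation and transfer of rational curves through a given point.
-/

set_option autoImplicit false

namespace Pool.Agent.R393.UF

open MvPolynomial
open Pool.Agent.R393.UO (los map_aevalP map_aevalE)
open Pool.Agent.R393.UA (spec_adj)

theorem exists_liftP {A B : Type} [CommRing A] [CommRing B] (φ : A →+* B) (p : Polynomial B)
    (h : ∀ m, p.coeff m ∈ Set.range φ) :
    ∃ q : Polynomial A, q.map φ = p ∧ q.natDegree ≤ p.natDegree := by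
  choose b hb using h
  refine ⟨∑ m ∈ Finset.range (p.natDegree + 1), Polynomial.C (b m) * Polynomial.X ^ m, ?_, ?_⟩
  · rw [Polynomial.map_sum]
    conv_rhs => rw [p.as_sum_range_C_mul_X_pow]
    refine Finset.sum_congr rfl fun m _ => ?_
    rw [Polynomial.map_mul, Polynomial.map_C, Polynomial.map_pow, Polynomial.map_X, hb]
  · refine Polynomial.natDegree_sum_le_of_forall_le _ _ fun m hm => ?_
    refine (Polynomial.natDegree_C_mul_X_pow_le _ _).trans ?_
    have := Finset.mem_range.1 hm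
    omega

theorem eval_one_map' {A B : Type} [CommRing A] [CommRing B] (φ : A →+* B) (p : Polynomial A) :
    (p.map φ).eval 1 = φ (p.eval 1) := Polynomial.eval_one_map φ p

/-- specialisation of a curve through a point, keeping the point -/
theorem spec_pt {κ Ω : Type} [Field κ] [IsAlgClosed κ] [Field Ω] [Algebra κ Ω] {n : ℕ} {ι : Type}
    (F : ι → MvPolynomial (Fin (n + 1)) κ) (P : Fin (n + 1) → κ) (p : Fin (n + 1) → Polynomial Ω)
    (hF : ∀ i, eval₂ (Polynomial.C.comp (algebraMap κ Ω)) p (F i) = 0)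
    (hP : ∀ j, (p j).eval 1 = algebraMap κ Ω (P j))
    (hc : ∃ i j, p i * Polynomial.C ((p j).eval 1) ≠ p j * Polynomial.C ((p i).eval 1)) :
    ∃ p' : Fin (n + 1) → Polynomial κ, (∀ i, aeval p' (F i) = 0) ∧ (∀ j, (p' j).eval 1 = P j) ∧
      ∃ i j, p' i * Polynomial.C ((p' j).eval 1) ≠ p' j * Polynomial.C ((p' i).eval 1) := by
  classical
  obtain ⟨i0, j0, h0⟩ := hc
  obtain ⟨m0, hm0⟩ : ∃ m, (p i0 * Polynomial.C ((p j0).eval 1) -
      p j0 * Polynomial.C ((p i0).eval 1)).coeff m ≠ 0 := by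
    by_contra hcon
    push Not at hcon
    apply h0
    rw [← sub_eq_zero]
    ext m
    rw [hcon m, Polynomial.coeff_zero]
  let S : Finset Ω := Finset.univ.biUnion fun j => (p j).support.image fun m => (p j).coeff m
  have hS : ∀ (j : Fin (n + 1)) (m : ℕ), (p j).coeff m ∈ Algebra.adjoin κ (S : Set Ω) := by
    intro j m
    by_cases h : (p j).coeff m = 0
    · rw [h]
      exact Subalgebra.zero_mem _
    · apply Algebra.subset_adjoin
      rw [Finset.mem_coe, Finset.mem_biUnion]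
      exact ⟨j, Finset.mem_univ j, Finset.mem_image.2 ⟨m, Polynomial.mem_support_iff.2 h, rfl⟩⟩
  obtain ⟨R, K', i1, i2, i3, ψ, h1, hwR, h2⟩ := spec_adj κ S _ hm0 (by
    rw [Polynomial.coeff_sub, Polynomial.coeff_mul_C, Polynomial.coeff_mul_C, hP, hP]
    exact Subalgebra.sub_mem _ (Subalgebra.mul_mem _ (hS _ _) (Subalgebra.algebraMap_mem _ _))
      (Subalgebra.mul_mem _ (hS _ _) (Subalgebra.algebraMap_mem _ _)))
  have hSR : Algebra.adjoin κ (S : Set Ω) ≤ R := Algebra.adjoin_le h1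
  choose pl hpl hpl' using fun j => exists_liftP (R.val : R →+* Ω) (p j)
    (fun m => ⟨⟨_, hSR (hS j m)⟩, rfl⟩)
  have hRinj : Function.Injective (R.val : R →+* Ω) := Subtype.val_injective
  have hPl : ∀ j, (pl j).eval 1 = algebraMap κ R (P j) := by
    intro j
    apply hRinj
    rw [← eval_one_map', hpl, hP]
    rfl
  have hFl : ∀ i, eval₂ (Polynomial.C.comp (algebraMap κ R)) pl (F i) = 0 := by
    intro i
    apply Polynomial.map_injective (R.val : R →+* Ω) hRinj
    rw [Polynomial.map_zero, ← hF i, ← Polynomial.coe_mapRingHom, hom_eval₂]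
    congr 1
    · refine RingHom.ext fun a => ?_
      change Polynomial.map _ (Polynomial.C _) = Polynomial.C _
      rw [Polynomial.map_C]
      rfl
    · exact funext hpl
  have hsurj : Function.Bijective (algebraMap κ K') :=
    IsAlgClosed.algebraMap_bijective_of_isIntegral
  let e : κ ≃ₐ[κ] K' := AlgEquiv.ofBijective (Algebra.ofId κ K') hsurj
  let χ : R →ₐ[κ] κ := (e.symm : K' →ₐ[κ] κ).comp ψ
  refine ⟨fun j => (pl j).map (χ : R →+* κ), fun i => ?_, fun j => ?_, i0, j0, fun h3 => ?_⟩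
  · have h3 := congrArg (Polynomial.mapRingHom (χ : R →+* κ)) (hFl i)
    rw [map_zero, hom_eval₂] at h3
    rw [aeval_def, ← h3]
    congr 1
    refine RingHom.ext fun a => ?_
    change Polynomial.C a = Polynomial.map _ (Polynomial.C _)
    rw [Polynomial.map_C]
    congr 1
    exact (χ.commutes a).symm
  · rw [eval_one_map', hPl]
    exact χ.commutes (P j)
  · apply h2
    have h4 : (⟨_, hwR⟩ : R) = (pl i0 * Polynomial.C ((pl j0).eval 1) -
        pl j0 * Polynomial.C ((pl i0).eval 1)).coeff m0 := by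
      apply hRinj
      change (p i0 * Polynomial.C ((p j0).eval 1) - p j0 * Polynomial.C ((p i0).eval 1)).coeff m0 =
        (R.val : R →+* Ω) _
      rw [← Polynomial.coeff_map, Polynomial.map_sub, Polynomial.map_mul, Polynomial.map_mul,
        Polynomial.map_C, Polynomial.map_C, ← eval_one_map' (R.val : R →+* Ω) (pl j0),
        ← eval_one_map' (R.val : R →+* Ω) (pl i0), hpl, hpl]
    rw [h4]
    apply e.symm.injective
    rw [map_zero]
    change (χ : R →+* κ) ((pl i0 * Polynomial.C ((pl j0).eval 1) -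
        pl j0 * Polynomial.C ((pl i0).eval 1)).coeff m0) = 0
    beta_reduce at h3
    rw [← Polynomial.coeff_map, Polynomial.map_sub, Polynomial.map_mul, Polynomial.map_mul,
      Polynomial.map_C, Polynomial.map_C, ← eval_one_map' (χ : R →+* κ) (pl j0),
      ← eval_one_map' (χ : R →+* κ) (pl i0), h3, sub_self, Polynomial.coeff_zero]

/-- the transfer of a curve through a point -/
theorem transferP {κ : Type} [Field κ] [IsAlgClosed κ] {Θ : (ℕ → ℂ) →+* ℂ}
    (hΘ : ∀ f : ℕ → ℂ, (∃ n, ∀ i, n ≤ i → f i = 0) → Θ f = 0)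
    (θ : (ℕ → ℂ) →+* κ) (hθ : Function.Surjective θ) (jj : κ →+* ℂ) (hj : ∀ a, jj (θ a) = Θ a)
    {n : ℕ} {ι : Type} [Fintype ι] (Fl : ι → MvPolynomial (Fin (n + 1)) (ℕ → ℂ))
    (P : Fin (n + 1) → ℕ → ℂ) (p' : Fin (n + 1) → Polynomial κ)
    (h4 : ∀ i, aeval p' (map θ (Fl i)) = 0) (h5 : ∀ j, (p' j).eval 1 = θ (P j))
    (h6 : ∃ i j, p' i * Polynomial.C ((p' j).eval 1) ≠ p' j * Polynomial.C ((p' i).eval 1)) :
    ∃ D : ℕ, ∀ T0 : ℕ, ∃ (T : ℕ) (p : Fin (n + 1) → Polynomial ℂ), T0 ≤ T ∧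
      (∀ i, (p i).natDegree ≤ D) ∧
      (∀ i, aeval p (map (Pi.evalRingHom (fun _ : ℕ => ℂ) T) (Fl i)) = 0) ∧
      (∀ j, (p j).eval 1 = P j T) ∧
      ∃ i j, p i * Polynomial.C ((p j).eval 1) ≠ p j * Polynomial.C ((p i).eval 1) := by
  classical
  obtain ⟨i0, j0, h6⟩ := h6
  choose pl hpl hpl' using fun j => exists_liftP θ (p' j) (fun m => hθ _)
  have hpd : ∀ i, (pl i).natDegree ≤ ∑ i, (p' i).natDegree := fun i =>
    (hpl' i).trans (Finset.single_le_sum (f := fun i => (p' i).natDegree)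
      (fun _ _ => Nat.zero_le _) (Finset.mem_univ i))
  have hev1 : ∀ i, θ ((pl i).eval 1) = (p' i).eval 1 := by
    intro i
    rw [← hpl i, eval_one_map']
  set E : ι → Polynomial (ℕ → ℂ) := fun i => aeval pl (Fl i) with hE
  have hEθ : ∀ i, (E i).map θ = 0 := by
    intro i
    rw [hE]
    change (aeval pl (Fl i) : Polynomial (ℕ → ℂ)).map θ = 0
    rw [map_aevalP]
    have h7 : (fun i => (pl i).map θ) = p' := funext hpl
    rw [h7]
    exact h4 i
  set U : Polynomial (ℕ → ℂ) := pl i0 * Polynomial.C ((pl j0).eval 1) -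
    pl j0 * Polynomial.C ((pl i0).eval 1) with hU
  have hUθ : U.map θ ≠ 0 := by
    rw [hU, Polynomial.map_sub, Polynomial.map_mul, Polynomial.map_mul, Polynomial.map_C,
      Polynomial.map_C, hpl, hpl, hev1, hev1]
    exact sub_ne_zero.2 h6
  obtain ⟨m0, hm0⟩ : ∃ m, θ (U.coeff m) ≠ 0 := by
    by_contra hcon
    push Not at hcon
    apply hUθ
    ext m
    rw [Polynomial.coeff_map, hcon m, Polynomial.coeff_zero]
  refine ⟨∑ i, (p' i).natDegree, fun T0 => ?_⟩
  let ind : ℕ → ℂ := fun i => if T0 ≤ i then 1 else 0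
  have hind : Θ ind = 1 := by
    have h7 : Θ (1 - ind) = 0 := hΘ _ ⟨T0, fun i hi => by
      change (1 : ℂ) - (if T0 ≤ i then 1 else 0) = 0
      rw [if_pos hi, sub_self]⟩
    rw [map_sub, map_one] at h7
    exact (sub_eq_zero.1 h7).symm
  have hu : Θ (U.coeff m0 * ind) ≠ 0 := by
    rw [map_mul, hind, mul_one, ← hj]
    exact (map_ne_zero jj).2 hm0
  obtain ⟨T, hT1, hT2⟩ := los (Θ := Θ) (J := (Σ i : ι, (E i).support) ⊕ Fin (n + 1))
    (Sum.elim (fun x => (E x.1).coeff x.2) (fun j => (pl j).eval 1 - P j)) (by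
      rintro (⟨i, m, hm⟩ | j)
      · have h7 := congrArg (fun Q : Polynomial κ => Q.coeff m) (hEθ i)
        simp only [Polynomial.coeff_map, Polynomial.coeff_zero] at h7
        change Θ ((E i).coeff m) = 0
        rw [← hj, h7, map_zero]
      · change Θ ((pl j).eval 1 - P j) = 0
        rw [← hj, map_sub, hev1, h5, sub_self, map_zero]) (U.coeff m0 * ind) hu
  have hT3 : ind T ≠ 0 := right_ne_zero_of_mul hT2
  have hT0 : T0 ≤ T := by
    by_contra hcon
    apply hT3
    change (if T0 ≤ T then (1 : ℂ) else 0) = 0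
    rw [if_neg hcon]
  replace hT2 : (U.coeff m0) T ≠ 0 := left_ne_zero_of_mul hT2
  let ev : (ℕ → ℂ) →+* ℂ := Pi.evalRingHom (fun _ : ℕ => ℂ) T
  have hevT : ∀ i, ev ((pl i).eval 1) = ((pl i).map ev).eval 1 := fun i => (eval_one_map' _ _).symm
  refine ⟨T, fun i => (pl i).map ev, hT0, fun i => Polynomial.natDegree_map_le.trans (hpd i),
    fun i => ?_, fun j => ?_, i0, j0, ?_⟩
  · rw [← map_aevalP]
    ext m
    rw [Polynomial.coeff_map, Polynomial.coeff_zero]
    by_cases hm : m ∈ (E i).support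
    · exact hT1 (Sum.inl ⟨i, m, hm⟩)
    · have h8 := Polynomial.notMem_support_iff.1 hm
      change ((E i).coeff m) T = 0
      rw [h8]
      rfl
  · rw [← hevT]
    have h8 := hT1 (Sum.inr j)
    change ((pl j).eval 1 - P j) T = 0 at h8
    exact sub_eq_zero.1 h8
  · intro h8
    apply hT2
    have h9 : U.map ev = 0 := by
      rw [hU, Polynomial.map_sub, Polynomial.map_mul, Polynomial.map_mul, Polynomial.map_C,
        Polynomial.map_C, hevT, hevT]
      exact sub_eq_zero.2 h8
    have h10 := congrArg (fun Q : Polynomial ℂ => Q.coeff m0) h9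
    simp only [Polynomial.coeff_map, Polynomial.coeff_zero] at h10
    exact h10

end Pool.Agent.R393.UF
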