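import Pool.Agent.R393.UF.Amal
import Pool.Agent.R393.UF.Spec
import Pool.Agent.R393.UF.Lim
import Pool.Agent.R393.UD.Fam

/-!
Rational curves of bounded degree through the points of entire curves of bounded complexity.
-/

set_option autoImplicit false

namespace Pool.Agent.R393.UF

open MvPolynomial Pool.Agent.Y377.ST Pool.Agent.Y377.IL Pool.Agent.Y377.EL Pool.Agent.H533R3.SL
open Pool.Agent.R393.SC Pool.Agent.R393.UO Pool.Agent.R393.UD Pool.Agent.Y837.ST

variable {s r e n : ℕ} {ι : Type}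

/-- from rational functions to polynomials, with the value at `1` -/
theorem uni_pt {k M : Type} [Field k] [Field M] [Algebra k M] {n : ℕ} {ι : Type}
    (F : ι → MvPolynomial (Fin (n + 1)) k) (hF : ∀ i, ∃ e, (F i).IsHomogeneous e)
    (q : Fin (n + 1) → RatFunc M) [CharZero M] (hq : ∀ i, MvPolynomial.aeval q (F i) = 0)
    (hc : ∃ i l, q l ≠ 0 ∧ ∀ c : M, q i / q l ≠ algebraMap M (RatFunc M) c) :
    ∃ (d : RatFunc M) (p : Fin (n + 1) → Polynomial (RatFunc M)), d ≠ 0 ∧
      (∀ i, MvPolynomial.aeval p (F i) = 0) ∧ (∀ j, (p j).eval 1 = d * q j) ∧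
      ∃ i j, p i * Polynomial.C ((p j).eval 1) ≠ p j * Polynomial.C ((p i).eval 1) := by
  classical
  obtain ⟨i, l, hl, hc⟩ := hc
  obtain ⟨⟨d, hd⟩, hda⟩ := IsLocalization.exist_integer_multiples_of_finite
    (nonZeroDivisors (Polynomial M)) q
  have hd0 : algebraMap (Polynomial M) (RatFunc M) d ≠ 0 := by
    rw [Ne, FaithfulSMul.algebraMap_eq_zero_iff]
    exact nonZeroDivisors.ne_zero hd
  choose a ha using hda
  have ha' : ∀ j, algebraMap (Polynomial M) (RatFunc M) (a j) =
      algebraMap (Polynomial M) (RatFunc M) d * q j := by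
    intro j
    rw [ha j]
    exact Algebra.smul_def d (q j)
  have hform : ∀ (e : ℕ) (F : MvPolynomial (Fin (n + 1)) k), F.IsHomogeneous e →
      MvPolynomial.aeval (fun j => algebraMap (Polynomial M) (RatFunc M) (a j)) F =
        (algebraMap (Polynomial M) (RatFunc M) d) ^ e * MvPolynomial.aeval q F := by
    intro e F hF
    have h1 : (fun j => algebraMap (Polynomial M) (RatFunc M) (a j)) =
        fun j => algebraMap (Polynomial M) (RatFunc M) d * q j := funext ha'
    rw [h1, aeval_scale _ _ hF]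
  refine ⟨algebraMap (Polynomial M) (RatFunc M) d, fun j => Sh (a j), hd0, ?_, ?_, ?_⟩
  · intro i
    obtain ⟨e, he⟩ := hF i
    have h2 : MvPolynomial.aeval a (F i) = 0 := by
      have h3 : algebraMap (Polynomial M) (RatFunc M) (MvPolynomial.aeval a (F i)) = 0 := by
        rw [← MvPolynomial.aeval_algebraMap_apply]
        have h4 := hform e (F i) he
        rw [hq i, mul_zero] at h4
        exact h4
      exact (FaithfulSMul.algebraMap_eq_zero_iff _ _).1 h3
    have h5 : Sh (MvPolynomial.aeval a (F i)) = MvPolynomial.aeval (fun j => Sh (a j)) (F i) := by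
      rw [MvPolynomial.aeval_def, MvPolynomial.eval₂_comp_left, Sh_alg]
      rfl
    rw [← h5, h2, map_zero]
  · intro j
    rw [Sh_one, ha']
  · refine ⟨i, l, fun heq => ?_⟩
    have heq' : Sh (a i) * Polynomial.C ((Sh (a l)).eval 1) =
        Sh (a l) * Polynomial.C ((Sh (a i)).eval 1) := heq
    have hal : a l ≠ 0 := by
      intro h
      have h1 := ha' l
      rw [h, map_zero] at h1
      exact mul_ne_zero hd0 hl h1.symm
    obtain ⟨c, hcl⟩ : ∃ c : M, (a l).eval c ≠ 0 := by
      by_contra hcon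
      push Not at hcon
      exact hal (Polynomial.funext fun r => by rw [hcon r, Polynomial.eval_zero])
    have h1 := congrArg (Polynomial.eval (1 - RatFunc.X + algebraMap M (RatFunc M) c)) heq'
    rw [Polynomial.eval_mul, Polynomial.eval_mul, Polynomial.eval_C, Polynomial.eval_C, Sh_const,
      Sh_const, Sh_one, Sh_one, ha', ha'] at h1
    apply hc ((a i).eval c / (a l).eval c)
    have hcl' : algebraMap M (RatFunc M) ((a l).eval c) ≠ 0 := by
      rw [Ne, map_eq_zero]
      exact hcl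
    rw [map_div₀, div_eq_div_iff hl hcl']
    apply mul_left_cancel₀ hd0
    linear_combination -h1

theorem zeros_countable {f : Ent} (hf : f ≠ 0) : {z : ℂ | (f : ℂ → ℂ) z = 0}.Countable := by
  have h1 : AnalyticOnNhd ℂ (f : ℂ → ℂ) Set.univ := fun z _ => entAn f z
  rcases h1.eqOn_zero_or_eventually_ne_zero_of_preconnected isPreconnected_univ with h2 | h2
  · exact absurd (Subtype.ext (funext fun z => h2 (Set.mem_univ z))) hf
  · have h3 : ({z : ℂ | (f : ℂ → ℂ) z = 0} ∩ Set.univ).Countable := by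
      apply (HereditarilyLindelofSpace.isLindelof _).countable_of_isDiscrete
        (isDiscrete_of_codiscreteWithin _)
      exact h2
    rwa [Set.inter_univ] at h3

/-- a generic centre -/
theorem exists_generic {A : Type} [CommRing A] [Countable A] (σ : A →+* ℂ)
    (ξ : Fin (n + 1) → Ent) (S : Set ℂ) (hS : ¬ S.Countable) (g : Ent) (hg : g ≠ 0) :
    ∃ w ∈ S, (g : ℂ → ℂ) w ≠ 0 ∧ ∀ G : MvPolynomial (Fin (n + 1)) A,
      ((eval₂ ((algebraMap ℂ Ent).comp σ) ξ G : Ent) : ℂ → ℂ) w = 0 →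
        eval₂ ((algebraMap ℂ Ent).comp σ) ξ G = 0 := by
  classical
  have hcs : Countable (MvPolynomial (Fin (n + 1)) A) := by
    rw [← Cardinal.mk_le_aleph0_iff]
    refine cardinalMk_le_max.trans ?_
    exact max_le (max_le (Cardinal.mk_le_aleph0_iff.2 inferInstance)
      (Cardinal.mk_le_aleph0_iff.2 inferInstance)) le_rfl
  let Z : MvPolynomial (Fin (n + 1)) A → Set ℂ := fun G =>
    if eval₂ ((algebraMap ℂ Ent).comp σ) ξ G = 0 then ∅ else
      {z | ((eval₂ ((algebraMap ℂ Ent).comp σ) ξ G : Ent) : ℂ → ℂ) z = 0}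
  have hZ : ∀ G, (Z G).Countable := by
    intro G
    simp only [Z]
    split_ifs with h
    · exact Set.countable_empty
    · exact zeros_countable h
  have hU : ((⋃ G, Z G) ∪ {z | (g : ℂ → ℂ) z = 0}).Countable :=
    (Set.countable_iUnion hZ).union (zeros_countable hg)
  obtain ⟨w, hw1, hw2⟩ : ∃ w ∈ S, w ∉ ((⋃ G, Z G) ∪ {z | (g : ℂ → ℂ) z = 0}) := by
    by_contra hcon
    push Not at hcon
    exact hS (hU.mono hcon)
  refine ⟨w, hw1, fun h => hw2 (Or.inr h), fun G hG => ?_⟩
  by_contra h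
  apply hw2
  refine Or.inl (Set.mem_iUnion.2 ⟨G, ?_⟩)
  simp only [Z, if_neg h]
  exact hG

/-- the values at the centres determine the zeros of the limit -/
theorem psi_gen (Θ : (ℕ → ℂ) →+* ℂ) (w : ℕ → ℂ) (g : ℕ → Ent)
    (h : ∀ T, (g T : ℂ → ℂ) (w T) = 0 → g T = 0) :
    Θ (fun T => (g T : ℂ → ℂ) (w T)) = 0 ↔ psi Θ w g = 0 := by
  constructor
  · intro h0
    let f : ℕ → ℂ := fun T => (g T : ℂ → ℂ) (w T)
    have h1 : g = (fun T => algebraMap ℂ Ent ((f * f⁻¹) T)) * g := by
      funext T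
      change g T = algebraMap ℂ Ent (f T * (f T)⁻¹) * g T
      by_cases h2 : f T = 0
      · rw [h T h2, mul_zero]
      · rw [mul_inv_cancel₀ h2, map_one, one_mul]
    rw [h1, map_mul, psi_const, map_mul]
    change algebraMap ℂ KK (Θ (fun T => (g T : ℂ → ℂ) (w T)) * _) * _ = 0
    rw [h0, zero_mul, map_zero, zero_mul]
  · intro h0
    rw [psi_apply] at h0
    have h1 : (thP Θ fun i => tayH (w i) (g i)) = 0 :=
      (map_eq_zero_iff _ (IsFractionRing.injective (PowerSeries ℂ) KK)).1 h0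
    have h2 := congrArg (PowerSeries.coeff 0) h1
    rw [map_zero] at h2
    change PowerSeries.coeff 0 (PowerSeries.mk fun n => Θ fun i =>
      PowerSeries.coeff n (tayH (w i) (g i))) = 0 at h2
    rw [PowerSeries.coeff_mk] at h2
    simpa only [tayH_coeff_zero] using h2

/-- the point `x(z)` lies on a nonconstant rational curve of degree at most `D` in `X : F = 0` -/
def OnRat (D : ℕ) (F : ι → MvPolynomial (Fin (n + 1)) ℂ) (v : Fin (n + 1) → ℂ) : Prop :=
  ∃ p : Fin (n + 1) → Polynomial ℂ, (∀ i, (p i).natDegree ≤ D) ∧ RatCurve F p ∧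
    ∀ j, (p j).eval 1 = v j

theorem coreP [Fintype ι] (dF : ι → ℕ) (s r e : ℕ) :
    ∃ D : ℕ, ∀ (F : ι → MvPolynomial (Fin (n + 1)) ℂ), (∀ i, (F i).IsHomogeneous (dF i)) →
      ∀ x : ℂ → Fin (n + 1) → ℂ, CurveVec s r e x → (∀ z i, aeval (x z) (F i) = 0) →
        (∃ z w i j, x z i * x w j ≠ x z j * x w i) → {z | ¬ OnRat D F (x z)}.Countable := by
  classical
  by_contra hcon
  push Not at hcon
  choose F hF x hx hX hnc hS using hcon
  choose ξ hξ using fun T => exists_ent (hx T)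
  have hwro : ∀ T, ∃ a b, wro (ξ T a) (ξ T b) ≠ 0 := by
    intro T
    by_contra hcon
    push Not at hcon
    obtain ⟨z, w, i, j, h1⟩ := hnc T
    apply h1
    rw [← hξ, ← hξ, ← hξ, ← hξ]
    exact const_of_wro (ξ T) hcon i j z w
  choose a b hab using hwro
  let Sc : ℕ → Finset ℂ := fun T => Finset.univ.biUnion fun i => (F T i).coeffs
  let k : ℕ → Subalgebra ℤ ℂ := fun T => Algebra.adjoin ℤ (Sc T : Set ℂ)
  have hk : ∀ T, Countable (k T) := by
    intro T
    have hft : Algebra.FiniteType ℤ (k T) :=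
      (Subalgebra.fg_iff_finiteType _).1 (Subalgebra.fg_adjoin_finset (Sc T))
    exact countable_of_ft (k T)
  let kv : ∀ T, k T →+* ℂ := fun T => (k T).val.toRingHom
  choose w hwS hw2 hgen using fun T => exists_generic (kv T) (ξ T) _ (hS T) _ (hab T)
  obtain ⟨Θ, hΘ⟩ := Pool.Agent.Y455.ST.t_THETA
  let φ : (∀ T, k T) →+* (ℕ → ℂ) :=
    RingHom.pi fun T => (kv T).comp (Pi.evalRingHom (fun T => k T) T)
  have hφT : ∀ T, (Pi.evalRingHom (fun _ : ℕ => ℂ) T).comp φ =
      (kv T).comp (Pi.evalRingHom (fun T => k T) T) := fun T => RingHom.ext fun a => rfl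
  have hφi : Function.Injective φ := by
    intro a b hab
    funext T
    exact Subtype.ext (congrFun hab T)
  let Fl : ι → MvPolynomial (Fin (n + 1)) (ℕ → ℂ) := fun i => tld (dF i) fun T => F T i
  have hFlm : ∀ i T, map (Pi.evalRingHom (fun _ : ℕ => ℂ) T) (Fl i) = F T i := fun i T =>
    tld_map (F := fun T => F T i) (fun T => hF T i) T
  have hcoef : ∀ i T m, coeff m (F T i) ∈ k T := by
    intro i T m
    by_cases h : coeff m (F T i) = 0
    · rw [h]
      exact Subalgebra.zero_mem _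
    · apply Algebra.subset_adjoin
      rw [Finset.mem_coe, Finset.mem_biUnion]
      exact ⟨i, Finset.mem_univ i, coeff_mem_coeffs m h⟩
  have hlift : ∀ i, ∃ P0 : MvPolynomial (Fin (n + 1)) (∀ T, k T), map φ P0 = Fl i := by
    intro i
    have h1 : Fl i ∈ Set.range (map φ : MvPolynomial (Fin (n + 1)) (∀ T, k T) →+* _) := by
      rw [mem_range_map_iff_coeffs_subset]
      intro c hc
      obtain ⟨m, -, rfl⟩ := mem_coeffs_iff.1 (Finset.mem_coe.1 hc)
      refine ⟨fun T => ⟨coeff m (Fl i) T, ?_⟩, rfl⟩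
      change coeff m (tld (dF i) fun T => F T i) T ∈ k T
      rw [coeff_tld]
      split_ifs with h
      · exact hcoef i T m
      · exact Subalgebra.zero_mem _
    exact h1
  choose FA hFA using hlift
  have hFAh : ∀ i, (FA i).IsHomogeneous (dF i) := by
    intro i m hm
    apply tld_hom (dF i) (fun T => F T i)
    change coeff m (Fl i) ≠ 0
    rw [← hFA, coeff_map]
    intro h0
    exact hm (hφi (by rw [h0, map_zero]))
  obtain ⟨M, j1, j2, q, hq, hq3⟩ := limP (s := s) (r := r) (e := e) φ x hx ξ hξ w a b hw2 Θ hΘ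
  have hcz : CharZero M := charZero_of_injective_algebraMap (algebraMap ℂ M).injective
  let P : Fin (n + 1) → ℕ → ℂ := fun j T => x T (w T) j
  let α0 : (∀ T, k T) →+* kap Θ := (thK Θ).comp φ
  let β0 : (∀ T, k T) →+* RatFunc M := (algebraMap ℂ (RatFunc M)).comp (Θ.comp φ)
  have hPq : ∀ (G : MvPolynomial (Fin (n + 1)) (∀ T, k T)) (d : ℕ), G.IsHomogeneous d →
      (eval₂ α0 (fun j => thK Θ (P j)) G = 0 ↔ eval₂ β0 q G = 0) := by
    intro G d hG
    have h1 : eval₂ β0 q G = aeval q (map (Θ.comp φ) G) := by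
      rw [aeval_def, eval₂_map]
    have h2 : eval₂ α0 (fun j => thK Θ (P j)) G = thK Θ (eval₂ φ P G) := (hom_eval₂ _ _ _ _).symm
    have h3 : eval₂ φ P G = fun T => ((eval₂ ((algebraMap ℂ Ent).comp
        ((Pi.evalRingHom (fun _ : ℕ => ℂ) T).comp φ)) (ξ T) G : Ent) : ℂ → ℂ) (w T) := by
      funext T
      have h4 := hom_eval₂ G φ (Pi.evalRingHom (fun _ : ℕ => ℂ) T) P
      change Pi.evalRingHom (fun _ : ℕ => ℂ) T (eval₂ φ P G) = _
      rw [h4, ← evE_apply, hom_eval₂]
      congr 1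
      funext j
      exact (hξ T j (w T)).symm
    rw [h1, hq G d hG, ← psi_gen, h2, h3]
    · rw [← Subtype.coe_inj]
      rfl
    · intro T hT
      have h5 : eval₂ ((algebraMap ℂ Ent).comp ((Pi.evalRingHom (fun _ : ℕ => ℂ) T).comp φ)) (ξ T) G
          = eval₂ ((algebraMap ℂ Ent).comp (kv T)) (ξ T)
            (map (Pi.evalRingHom (fun T => k T) T) G) := by
        rw [eval₂_map, hφT, RingHom.comp_assoc]
      rw [h5] at hT ⊢
      exact hgen T _ hT
  have hqF : ∀ i, aeval q (map (Θ.comp φ) (FA i)) = 0 := by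
    intro i
    rw [hq _ _ (hFAh i)]
    have h1 : (fun T => eval₂ ((algebraMap ℂ Ent).comp
        ((Pi.evalRingHom (fun _ : ℕ => ℂ) T).comp φ)) (ξ T) (FA i)) = 0 := by
      funext T
      apply Subtype.ext
      funext z
      change evE z (eval₂ _ (ξ T) (FA i)) = 0
      rw [hom_eval₂]
      have h2 := hX T z i
      rw [← hFlm, ← hFA, map_map, aeval_def, eval₂_map] at h2
      rw [← h2]
      congr 1
      funext j
      exact hξ T j z
    rw [h1, map_zero]
  obtain ⟨d, p, hd, hp1, hp2, hp3⟩ := uni_pt (k := ℂ) (fun i => map (Θ.comp φ) (FA i))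
    (fun i => ⟨dF i, (hFAh i).map _⟩) q hqF hq3
  obtain ⟨Ω, iΩ, α, p', h1, h2, h3⟩ := amalg_curve α0 β0 (fun j => thK Θ (P j)) q hPq p d hd hp2 FA
    (fun i => ⟨dF i, hFAh i⟩) (fun i => by
      have h1 := hp1 i
      rw [aeval_def, eval₂_map] at h1
      exact h1) hp3
  let _ : Algebra (kap Θ) Ω := α.toAlgebra
  obtain ⟨p'', h4, h5, h6⟩ := spec_pt (fun i => map (thK Θ) (Fl i)) (fun j => thK Θ (P j)) p'
    (fun i => by
      rw [← hFA, map_map, eval₂_map]
      exact h1 i) h2 h3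
  obtain ⟨D, hD⟩ := transferP (κ := kap Θ) hΘ (thK Θ) thK_surj (kap Θ).subtype (fun a => rfl) Fl P
    p'' h4 h5 h6
  obtain ⟨T, g, hT, g1, g2, g3, i0, j0, g4⟩ := hD D
  apply hwS T
  exact ⟨g, fun i => (g1 i).trans hT, ⟨fun i => by rw [← hFlm]; exact g2 i, nc_of g4⟩, g3⟩

end Pool.Agent.R393.UF
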