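import Pool.Agent.R393.UF.Core

/-!
Special sets of bounded complexity.
-/

set_option autoImplicit false

namespace Pool.Agent.R393.UF

open MvPolynomial Pool.Agent.Y377.ST Pool.Agent.Y377.IL Pool.Agent.Y377.EL Pool.Agent.H533R3.SL
open Pool.Agent.R393.SC Pool.Agent.R393.UO Pool.Agent.R393.UD

variable {s r e n : ℕ} {ι : Type}

/-- `x` is a nonconstant entire curve of complexity `(s, r, e)` in `X : F = 0` (see `CurveVec`). -/
def EntCurve (s r e : ℕ) (F : ι → MvPolynomial (Fin (n + 1)) ℂ) (x : ℂ → Fin (n + 1) → ℂ) : Prop :=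
  CurveVec s r e x ∧ (∀ z i, aeval (x z) (F i) = 0) ∧ ∃ z w i j, x z i * x w j ≠ x z j * x w i

/-- (The cone over) the Zariski closure of the union of the nonconstant entire curves of complexity
`(s, r, e)` in `X : F = 0`. -/
def SpEnt (s r e : ℕ) (F : ι → MvPolynomial (Fin (n + 1)) ℂ) : Set (Fin (n + 1) → ℂ) :=
  {v | ∀ (G : MvPolynomial (Fin (n + 1)) ℂ) (a : ℕ), G.IsHomogeneous a →
    (∀ x, EntCurve s r e F x → ∀ z, aeval (x z) G = 0) → aeval v G = 0}

/-- (The cone over) the Zariski closure of the union of the nonconstant rational curves in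
`X : F = 0` which are given by polynomials of degree at most `D`. -/
def SpRat (D : ℕ) (F : ι → MvPolynomial (Fin (n + 1)) ℂ) : Set (Fin (n + 1) → ℂ) :=
  {v | ∀ (G : MvPolynomial (Fin (n + 1)) ℂ) (a : ℕ), G.IsHomogeneous a →
    (∀ p, (∀ i, (p i).natDegree ≤ D) → RatCurve F p → ∀ z, aeval (fun i => (p i).eval z) G = 0) →
      aeval v G = 0}

/-- the degree bound -/
noncomputable def BP (n d s r e : ℕ) : ℕ :=
  (coreP (n := n) (fun a : JJ n d => (a.1 : ℕ)) s r e).choose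

theorem on_rat_all {d : ℕ} (F : ι → MvPolynomial (Fin (n + 1)) ℂ)
    (hF : ∀ i, ∃ a, a ≤ d ∧ (F i).IsHomogeneous a) {x : ℂ → Fin (n + 1) → ℂ}
    (hx : EntCurve s r e F x) :
    ∃ B : Set ℂ, B.Countable ∧ ∀ z, z ∉ B → x z ≠ 0 ∧ OnRat (BP n d s r e) F (x z) := by
  obtain ⟨f, f1, f2, f3⟩ := reduce F hF
  obtain ⟨h1, h2, h3⟩ := hx
  have h4 := (coreP (n := n) (fun a : JJ n d => (a.1 : ℕ)) s r e).choose_spec f f1 x h1
    (fun z a => aeval_span F (x z) (h2 z) (f2 a)) h3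
  obtain ⟨ξ, hξ⟩ := exists_ent h1
  obtain ⟨z0, w0, i0, j0, hne⟩ := h3
  have h5 : ∃ j, ξ j ≠ 0 := by
    by_contra hcon
    push Not at hcon
    apply hne
    rw [← hξ, ← hξ, ← hξ, ← hξ, hcon, hcon]
  obtain ⟨j, hj⟩ := h5
  refine ⟨_, h4.union (zeros_countable hj), fun z hz => ⟨fun h0 => hz (Or.inr ?_), ?_⟩⟩
  · change (ξ j : ℂ → ℂ) z = 0
    rw [hξ, h0]
    rfl
  · by_contra h6
    apply hz
    refine Or.inl fun h7 => h6 ?_
    obtain ⟨p, p1, p2, p3⟩ := h7
    exact ⟨p, p1, ⟨fun i => aeval_span f p p2.1 (f3 i), p2.2⟩, p3⟩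

theorem spEnt_subset {d : ℕ} (F : ι → MvPolynomial (Fin (n + 1)) ℂ)
    (hF : ∀ i, ∃ a, a ≤ d ∧ (F i).IsHomogeneous a) (s r e : ℕ) :
    SpEnt s r e F ⊆ SpRat (BP n d s r e) F := by
  intro v hv G a hG hrat
  refine hv G a hG fun x hx z => ?_
  obtain ⟨B, hB, h1⟩ := on_rat_all F hF hx
  obtain ⟨ξ, hξ⟩ := exists_ent hx.1
  let g : Ent := eval₂ (algebraMap ℂ Ent) ξ G
  have hg : ∀ y, (g : ℂ → ℂ) y = aeval (x y) G := by
    intro y
    change evE y (eval₂ _ ξ G) = _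
    rw [hom_eval₂, aeval_def]
    congr 1
    funext j
    exact hξ j y
  rw [← hg]
  by_cases hg0 : g = 0
  · rw [hg0]
    rfl
  · exfalso
    have h2 : (Set.univ : Set ℂ).Countable := by
      refine (hB.union (zeros_countable hg0)).mono fun y _ => ?_
      by_cases hy : y ∈ B
      · exact Or.inl hy
      · refine Or.inr ?_
        obtain ⟨-, p, p1, p2, p3⟩ := h1 y hy
        change (g : ℂ → ℂ) y = 0
        rw [hg]
        have h3 := hrat p p1 p2 1
        have h4 : (fun i => (p i).eval 1) = x y := funext p3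
        rwa [h4] at h3
    exact not_countable_complex h2

theorem spRat_subset (F : ι → MvPolynomial (Fin (n + 1)) ℂ) (e : ℕ) :
    SpRat e F ⊆ SpEnt 1 2 e F := by
  intro v hv G a hG hent
  refine hv G a hG fun p hp hc z => ?_
  refine hent (fun z i => (p i).eval z) ⟨curveVec_poly' p hp, fun z i => ?_, ?_⟩ z
  · rw [ev_poly, hc.1 i, Polynomial.eval_zero]
  · obtain ⟨t, u, i, j, h1⟩ := hc.2
    exact ⟨t, u, i, j, h1⟩

end Pool.Agent.R393.UF
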